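import Pool.Agent.helper82.CH.SpecA

/-!
# Project CH (MP_2e0e07_nt), row PAPr: degree one primes in progressions
-/

set_option autoImplicit false

open NumberField Complex Pool.Agent.UN

namespace Pool.Agent.CH

open Filter Topology

section prep

variable {F : Type} [Field F] [NumberField F]

theorem PAPr_cc1 {χ : Ideal (𝓞 F) → ℂ} (h : CM χ) : cc χ 1 = 1 := by
  have h1 : idl F 1 = {⊤} := by
    ext a
    unfold idl
    rw [Set.Finite.mem_toFinset, Finset.mem_singleton]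
    exact Ideal.absNorm_eq_one_iff
  unfold cc
  rw [h1, Finset.sum_singleton, h.one]

/-- the logarithmic derivative -/
theorem PAPr_zz (hCID : CID_stmt) (hCSM : CSM_stmt) (hEXL : EXL_stmt) {χ : Ideal (𝓞 F) → ℂ} (h : CM χ) {L : ℂ → ℂ}
    (hL : ∀ s : ℂ, 1 < s.re → LSeries (cc χ) s = L s) (s : ℂ) (hs : 1 < s.re) : LSeries (zz χ) s * L s = - deriv L s := by
  have h1 := (hEXL (cc χ) (zz χ) (PAPr_cc1 h) (fun s hs => ⟨(hCSM F χ h s hs).1, (hCSM F χ h s hs).2.1⟩) (fun n hn => hCID F χ h n hn)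
    (fun s hs => (hCSM F χ h s hs).2.2) s hs).2
  rw [hL s hs] at h1
  have h2 : deriv (LSeries (cc χ)) s = deriv L s := by
    apply Filter.EventuallyEq.deriv_eq
    filter_upwards [(isOpen_lt continuous_const Complex.continuous_re).mem_nhds hs] with w hw
    exact hL w hw
  rw [h1, h2]

theorem PAPr_bdd {L : ℂ → ℂ} (hL : Differentiable ℂ L) (h1 : L 1 ≠ 0) : ∃ C : ℝ, ∀ᶠ s : ℝ in 𝓝 1, L s ≠ 0 ∧ ‖deriv L s / L s‖ ≤ C := by
  have hd : Continuous (deriv L) := (hL.contDiff (n := 1)).continuous_deriv le_rfl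
  have h2 : Continuous fun s : ℝ => L s := hL.continuous.comp Complex.continuous_ofReal
  have h3 : Continuous fun s : ℝ => deriv L s := hd.comp Complex.continuous_ofReal
  have h4 : L ((1 : ℝ) : ℂ) ≠ 0 := by rwa [Complex.ofReal_one]
  have h5 : ContinuousAt (fun s : ℝ => ‖deriv L s / L s‖) 1 := (h3.continuousAt.div h2.continuousAt h4).norm
  refine ⟨‖deriv L ((1 : ℝ) : ℂ) / L ((1 : ℝ) : ℂ)‖ + 1, ?_⟩
  filter_upwards [h2.continuousAt.eventually_ne h4, h5.eventually (Iio_mem_nhds (lt_add_one _))] with s hs hs'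
  exact ⟨hs, le_of_lt hs'⟩

theorem PAPr_triv {m : ℕ} {ψ : DirichletCharacter ℂ m} (h : Triv F ψ) {p : ℕ} (hp : p.Prime) (hpm : ¬ p ∣ m) : ψ ((p : ℕ) : ZMod m) * (nd F p : ℂ) = (nd F p : ℂ) := by
  by_cases h0 : nd F p = 0
  · rw [h0, Nat.cast_zero, mul_zero]
  · have h1 : Nonempty {I : Ideal (𝓞 F) // Ideal.absNorm I = p} := by
      by_contra h2
      rw [not_nonempty_iff] at h2
      exact h0 (by unfold nd; exact Nat.card_of_isEmpty)
    obtain ⟨I, hI⟩ := h1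
    have hI0 : I ≠ ⊥ := by
      rintro rfl
      rw [Ideal.absNorm_bot] at hI
      exact hp.ne_zero hI.symm
    have h2 : I ⊔ Ideal.span {((m : ℕ) : 𝓞 F)} = ⊤ := by
      rw [Ideal.eq_top_iff_one]
      have h3 : IsCoprime (p : ℤ) (m : ℤ) := Nat.isCoprime_iff_coprime.2 ((Nat.Prime.coprime_iff_not_dvd hp).2 hpm)
      obtain ⟨u, v, huv⟩ := h3
      have h4 : (u : 𝓞 F) * ((p : ℕ) : 𝓞 F) + (v : 𝓞 F) * ((m : ℕ) : 𝓞 F) = 1 := by exact_mod_cast congrArg (fun x : ℤ => (x : 𝓞 F)) huv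
      rw [← h4]
      refine Ideal.add_mem _ (Ideal.mem_sup_left (Ideal.mul_mem_left _ _ ?_)) (Ideal.mem_sup_right (Ideal.mul_mem_left _ _ (Ideal.mem_span_singleton_self _)))
      rw [← hI]
      exact Ideal.absNorm_mem I
    have h3 := h I hI0 h2
    unfold nch at h3
    rw [if_neg hI0, hI] at h3
    rw [h3, one_mul]

end prep

theorem PAPr (hCID : CID_stmt) (hCSM : CSM_stmt) (hEXL : EXL_stmt) (hLGB : LGB_stmt) (hLCH : LCH_stmt) (hKFV : KFV_stmt) (hTRV : TRV_stmt)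
    (hNVS : NVS_stmt) : PAP_stmt := by
  intro F M _ _ _ _ _ m r z g T hm hz hadj hgz
  by_contra hno
  push Not at hno
  haveI : NeZero m := ⟨hm.ne'⟩
  have hcop : r.Coprime m := by
    have h1 : IsPrimitiveRoot (g z) m := hz.map_of_injective g.injective
    rw [hgz, hz.pow_iff_coprime hm] at h1
    exact h1
  have hunit : IsUnit ((r : ℕ) : ZMod m) := (ZMod.isUnit_iff_coprime r m).2 hcop
  choose χ hχCM hχp hχL using fun ψ : DirichletCharacter ℂ m => hLCH F m ψ hm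
  obtain ⟨CB, hCB⟩ := hLGB F
  obtain ⟨CK, δ, hδ, hK⟩ := hKFV F
  classical
  set Bad : Finset Nat.Primes := (T ∪ m.divisors).preimage (fun p : Nat.Primes => (p : ℕ)) (Subtype.coe_injective.injOn) with hBad
  have hBadiff : ∀ p : Nat.Primes, p ∉ Bad → (p : ℕ) ∉ T ∧ ¬ (p : ℕ) ∣ m := by
    intro p hp
    rw [hBad, Finset.mem_preimage, Finset.mem_union, not_or, Nat.mem_divisors, not_and_or] at hp
    exact ⟨hp.1, hp.2.resolve_right (not_not.2 hm.ne')⟩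
  let a : DirichletCharacter ℂ m → ℝ → Nat.Primes → ℂ := fun ψ s p => (Real.log p : ℂ) * cc (χ ψ) p * (((p : ℕ) : ℂ) ^ (-(s : ℂ)))
  have ha : ∀ ψ s p, a ψ s p = (Real.log p : ℂ) * cc (χ ψ) p * (((p : ℕ) : ℂ) ^ (-(s : ℂ))) := fun _ _ _ => rfl
  let c : DirichletCharacter ℂ m → ℂ := fun ψ => ψ (((r : ℕ) : ZMod m)⁻¹)
  have hcdef : ∀ ψ, c ψ = ψ (((r : ℕ) : ZMod m)⁻¹) := fun _ => rfl
  have hc1 : ∀ ψ, ‖c ψ‖ ≤ 1 := fun ψ => DirichletCharacter.norm_le_one ψ _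
  have hcr : ∀ ψ : DirichletCharacter ℂ m, ψ ((r : ℕ) : ZMod m) = 1 → c ψ = 1 := by
    intro ψ h
    have h1 : ((r : ℕ) : ZMod m) * ((r : ℕ) : ZMod m)⁻¹ = 1 := ZMod.coe_mul_inv_eq_one r hcop
    have h2 : ψ ((r : ℕ) : ZMod m) * c ψ = 1 := by rw [hcdef, ← map_mul, h1, map_one]
    rwa [h, one_mul] at h2
  have hsum : ∀ ψ (s : ℝ), 1 < s → Summable (a ψ s) := fun ψ s hs => (hCB (χ ψ) (hχCM ψ) s hs).2.1
  have hpow : ∀ (p : Nat.Primes) (s : ℝ), ((p : ℕ) : ℂ) ^ (-(s : ℂ)) = ((((p : ℕ) : ℝ) ^ (-s) : ℝ) : ℂ) := by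
    intro p s
    rw [Complex.ofReal_cpow (Nat.cast_nonneg _)]
    push_cast
    rfl
  have hpow0 : ∀ (p : Nat.Primes) (s : ℝ), 0 ≤ ((p : ℕ) : ℝ) ^ (-s) := fun p s => Real.rpow_nonneg (Nat.cast_nonneg _) _
  have hpow1 : ∀ (p : Nat.Primes) (s : ℝ), 1 < s → ((p : ℕ) : ℝ) ^ (-s) ≤ 1 := fun p s hs =>
    Real.rpow_le_one_of_one_le_of_nonpos (by exact_mod_cast p.2.one_lt.le) (by linarith)
  have hlog0 : ∀ p : Nat.Primes, 0 ≤ Real.log p := fun p => Real.log_nonneg (by exact_mod_cast p.2.one_lt.le)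
  have hlog2 : ∀ p : Nat.Primes, Real.log 2 ≤ Real.log p := fun p => Real.log_le_log two_pos (by exact_mod_cast p.2.two_le)
  have hnorm : ∀ ψ s p, 1 < s → ‖a ψ s p‖ ≤ Real.log p * ‖cc (χ ψ) p‖ := by
    intro ψ s p hs
    rw [ha, norm_mul, norm_mul, hpow, Complex.norm_real, Complex.norm_real, Real.norm_of_nonneg (hlog0 p), Real.norm_of_nonneg (hpow0 p s)]
    exact mul_le_of_le_one_right (mul_nonneg (hlog0 p) (norm_nonneg _)) (hpow1 p s hs)
  have hnd0 : ∀ p : Nat.Primes, p ∉ Bad → ((r : ℕ) : ZMod m) = ((p : ℕ) : ZMod m) → nd F p = 0 := by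
    intro p hp hrp
    have h1 : (p : ℕ) ≡ r [MOD m] := ((ZMod.natCast_eq_natCast_iff _ _ _).1 hrp).symm
    have h2 : IsEmpty {I : Ideal (𝓞 F) // Ideal.absNorm I = (p : ℕ)} := ⟨fun I => hno p I.1 p.2 (hBadiff p hp).1 h1 I.2⟩
    unfold nd
    exact Nat.card_of_isEmpty
  have hzero : ∀ (s : ℝ) (p : Nat.Primes), p ∉ Bad → ∑ ψ : DirichletCharacter ℂ m, c ψ * a ψ s p = 0 := by
    intro s p hp
    have h1 : ∀ ψ, c ψ * a ψ s p = (ψ (((r : ℕ) : ZMod m)⁻¹) * ψ ((p : ℕ) : ZMod m)) * ((Real.log p : ℂ) * (nd F p : ℂ) * (((p : ℕ) : ℂ) ^ (-(s : ℂ)))) := by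
      intro ψ
      rw [ha, hχp ψ p p.2 (hBadiff p hp).2, hcdef]
      ring
    rw [Finset.sum_congr rfl fun ψ _ => h1 ψ, ← Finset.sum_mul, DirichletCharacter.sum_char_inv_mul_char_eq ℂ hunit]
    split_ifs with h2
    · rw [hnd0 p hp h2, Nat.cast_zero, mul_zero, zero_mul, mul_zero]
    · rw [zero_mul]
  have htotal : ∀ s : ℝ, 1 < s → ∑ ψ : DirichletCharacter ℂ m, c ψ * ∑' p, a ψ s p = ∑ p ∈ Bad, ∑ ψ : DirichletCharacter ℂ m, c ψ * a ψ s p := by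
    intro s hs
    rw [Finset.sum_congr rfl fun ψ _ => (tsum_mul_left (a := c ψ) (f := a ψ s)).symm]
    rw [← Summable.tsum_finsetSum (fun ψ _ => (hsum ψ s hs).mul_left _)]
    exact tsum_eq_sum fun p hp => hzero s p hp
  have hC0 : ∀ s : ℝ, 1 < s → ‖∑ ψ : DirichletCharacter ℂ m, c ψ * ∑' p, a ψ s p‖ ≤ ∑ p ∈ Bad, ∑ ψ : DirichletCharacter ℂ m, Real.log p * ‖cc (χ ψ) p‖ := by
    intro s hs
    rw [htotal s hs]
    refine (norm_sum_le _ _).trans (Finset.sum_le_sum fun p _ => (norm_sum_le _ _).trans (Finset.sum_le_sum fun ψ _ => ?_))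
    rw [norm_mul]
    exact (mul_le_of_le_one_left (norm_nonneg _) (hc1 ψ)).trans (hnorm ψ s p hs)
  set G : ℝ → ℝ := fun s => ∑' p : Nat.Primes, (nd F p : ℝ) * ((p : ℕ) : ℝ) ^ (-s) with hG
  have hG0 : ∀ s, 0 ≤ G s := fun s => tsum_nonneg fun p => mul_nonneg (Nat.cast_nonneg _) (hpow0 p s)
  have hgood : ∀ ψ : DirichletCharacter ℂ m, (∀ p : Nat.Primes, p ∉ Bad → cc (χ ψ) p = (nd F p : ℂ)) →
      ∃ C : ℝ, ∀ s : ℝ, 1 < s → s < 1 + δ → Real.log 2 * G s - C ≤ (∑' p, a ψ s p).re := by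
    intro ψ hψ
    refine ⟨∑ p ∈ Bad, (Real.log 2 * nd F p + Real.log p * ‖cc (χ ψ) p‖), fun s hs hs' => ?_⟩
    have hGs := (hK s hs hs').1
    have h1 : (∑' p, a ψ s p).re = ∑' p, (a ψ s p).re := Complex.re_tsum (hsum ψ s hs)
    have h2 : Summable fun p => (a ψ s p).re := (Complex.hasSum_re (hsum ψ s hs).hasSum).summable
    set E : Nat.Primes → ℝ := fun p => if p ∈ Bad then (Real.log 2 * nd F p + Real.log p * ‖cc (χ ψ) p‖) else 0 with hE
    have hE0 : ∀ p, p ∉ Bad → E p = 0 := fun p hp => if_neg hp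
    have hE1 : ∀ p, p ∈ Bad → E p = Real.log 2 * nd F p + Real.log p * ‖cc (χ ψ) p‖ := fun p hp => if_pos hp
    have hEs : Summable E := summable_of_ne_finset_zero (s := Bad) hE0
    have hEt : ∑' p, E p = ∑ p ∈ Bad, (Real.log 2 * nd F p + Real.log p * ‖cc (χ ψ) p‖) := by
      rw [tsum_eq_sum (s := Bad) hE0]
      exact Finset.sum_congr rfl hE1
    have h3 : ∀ p : Nat.Primes, Real.log 2 * ((nd F p : ℝ) * ((p : ℕ) : ℝ) ^ (-s)) - E p ≤ (a ψ s p).re := by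
      intro p
      have hl2 : 0 ≤ Real.log 2 := Real.log_nonneg (by norm_num)
      by_cases hp : p ∈ Bad
      · rw [hE1 p hp]
        have h4 := (Complex.abs_re_le_norm (a ψ s p)).trans (hnorm ψ s p hs)
        have h5 := (abs_le.1 h4).1
        have h6 : Real.log 2 * ((nd F p : ℝ) * ((p : ℕ) : ℝ) ^ (-s)) ≤ Real.log 2 * nd F p :=
          mul_le_mul_of_nonneg_left (mul_le_of_le_one_right (Nat.cast_nonneg _) (hpow1 p s hs)) hl2
        linarith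
      · rw [hE0 p hp, sub_zero, ha, hψ p hp, hpow]
        have h4 : ((Real.log p : ℂ) * (nd F p : ℂ) * ((((p : ℕ) : ℝ) ^ (-s) : ℝ) : ℂ)) = ((Real.log p * ((nd F p : ℝ) * ((p : ℕ) : ℝ) ^ (-s)) : ℝ) : ℂ) := by
          push_cast
          ring
        rw [h4, Complex.ofReal_re]
        exact mul_le_mul_of_nonneg_right (hlog2 p) (mul_nonneg (Nat.cast_nonneg _) (hpow0 p s))
    have h4 := Summable.tsum_le_tsum h3 ((hGs.mul_left _).sub hEs) h2
    rw [Summable.tsum_sub (hGs.mul_left _) hEs, tsum_mul_left, hEt, ← h1] at h4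
    exact h4
  have hev : ∀ᶠ s : ℝ in 𝓝[>] 1, 1 < s ∧ s < 1 + δ := by
    have h1 : ∀ᶠ s : ℝ in 𝓝[>] 1, s < 1 + δ := nhdsWithin_le_nhds (Iio_mem_nhds (by linarith))
    filter_upwards [h1, self_mem_nhdsWithin] with s hs hs'
    exact ⟨hs', hs⟩
  have hmain : ∀ ψ : DirichletCharacter ℂ m, ∃ C : ℝ, ∀ᶠ s : ℝ in 𝓝[>] 1, (if ψ = 1 then Real.log 2 * G s else 0) - C ≤ (c ψ * ∑' p, a ψ s p).re := by
    intro ψ
    have hl2 : 0 ≤ Real.log 2 := Real.log_nonneg (by norm_num)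
    by_cases hψ1 : ψ = 1
    · have h1 : ∀ u : ZMod m, IsUnit u → ψ u = 1 := fun u hu => by
        rw [hψ1]
        exact MulChar.one_apply hu
      obtain ⟨C, hC⟩ := hgood ψ fun p hp => by
        rw [hχp ψ p p.2 (hBadiff p hp).2, h1, one_mul]
        exact (ZMod.isUnit_iff_coprime _ m).2 ((Nat.Prime.coprime_iff_not_dvd p.2).2 (hBadiff p hp).2)
      refine ⟨C, ?_⟩
      filter_upwards [hev] with s hs
      rw [if_pos hψ1, hcr ψ (h1 _ hunit), one_mul]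
      exact hC s hs.1 hs.2
    · by_cases hT : Triv F ψ
      · obtain ⟨C, hC⟩ := hgood ψ fun p hp => by
          rw [hχp ψ p p.2 (hBadiff p hp).2, PAPr_triv hT p.2 (hBadiff p hp).2]
        refine ⟨C, ?_⟩
        filter_upwards [hev] with s hs
        rw [if_neg hψ1, hcr ψ (hTRV F M m z ψ hm hz hadj hT g r hgz), one_mul]
        have h1 := hC s hs.1 hs.2
        have h2 : 0 ≤ Real.log 2 * G s := mul_nonneg hl2 (hG0 s)
        linarith
      · obtain ⟨L, hL, hLs⟩ := hχL ψ hT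
        have hL1 : L 1 ≠ 0 := hNVS F M m z ψ (χ ψ) L hm hz hadj hT (hχCM ψ) (hχp ψ) hL hLs
        obtain ⟨C, hC⟩ := PAPr_bdd hL hL1
        refine ⟨C + CB, ?_⟩
        have hC' : ∀ᶠ s : ℝ in 𝓝[>] 1, L s ≠ 0 ∧ ‖deriv L s / L s‖ ≤ C := nhdsWithin_le_nhds hC
        filter_upwards [hev, hC'] with s hs hs'
        rw [if_neg hψ1]
        have h1 := PAPr_zz hCID hCSM hEXL (hχCM ψ) hLs (s : ℂ) (by rw [Complex.ofReal_re]; exact hs.1)
        have h2 : LSeries (zz (χ ψ)) s = - (deriv L s / L s) := by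
          rw [← neg_div, ← h1, mul_div_cancel_right₀ _ hs'.1]
        have h3 : ‖LSeries (zz (χ ψ)) s‖ ≤ C := by
          rw [h2, norm_neg]
          exact hs'.2
        have h4 : ‖LSeries (zz (χ ψ)) s - ∑' p, a ψ s p‖ ≤ CB := (hCB (χ ψ) (hχCM ψ) s hs.1).2.2.2
        have h5 : ‖∑' p, a ψ s p‖ ≤ C + CB := by
          have h6 : ∑' p, a ψ s p = LSeries (zz (χ ψ)) s - (LSeries (zz (χ ψ)) s - ∑' p, a ψ s p) := by ring
          rw [h6]
          exact (norm_sub_le _ _).trans (add_le_add h3 h4)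
        have h6 : ‖c ψ * ∑' p, a ψ s p‖ ≤ C + CB := by
          rw [norm_mul]
          exact (mul_le_of_le_one_left (norm_nonneg _) (hc1 ψ)).trans h5
        have h7 := (abs_le.1 ((Complex.abs_re_le_norm (c ψ * ∑' p, a ψ s p)).trans h6)).1
        linarith
  choose C hC using hmain
  have hall : ∀ᶠ s : ℝ in 𝓝[>] 1, ∀ ψ : DirichletCharacter ℂ m, (if ψ = 1 then Real.log 2 * G s else 0) - C ψ ≤ (c ψ * ∑' p, a ψ s p).re :=
    Filter.eventually_all.2 hC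
  set K0 : ℝ := ∑ p ∈ Bad, ∑ ψ : DirichletCharacter ℂ m, Real.log p * ‖cc (χ ψ) p‖ with hK0
  set K1 : ℝ := (K0 + ∑ ψ, C ψ) / Real.log 2 with hK1
  have hbound : ∀ᶠ s : ℝ in 𝓝[>] 1, G s ≤ K1 := by
    filter_upwards [hall, hev] with s hs hs'
    have hl2 : 0 < Real.log 2 := Real.log_pos (by norm_num)
    have h1 := Finset.sum_le_sum fun ψ (_ : ψ ∈ Finset.univ) => hs ψ
    rw [Finset.sum_sub_distrib, Finset.sum_ite_eq' Finset.univ (1 : DirichletCharacter ℂ m), if_pos (Finset.mem_univ _), ← Complex.re_sum] at h1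
    have h2 := (le_abs_self _).trans ((Complex.abs_re_le_norm _).trans (hC0 s hs'.1))
    rw [hK1, le_div_iff₀ hl2]
    have h3 := h1.trans h2
    linarith
  have hsmall : ∀ᶠ s : ℝ in 𝓝[>] 1, s < 1 + Real.exp (-(K1 + CK) - 1) :=
    nhdsWithin_le_nhds (Iio_mem_nhds (by linarith [Real.exp_pos (-(K1 + CK) - 1)]))
  obtain ⟨s, ⟨hs1, hs2⟩, hs3⟩ := ((hbound.and hev).and hsmall).exists
  have h1 := (abs_le.1 (hK s hs2.1 hs2.2).2).1
  have h2 : Real.log (s - 1) < -(K1 + CK) - 1 := by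
    rw [Real.log_lt_iff_lt_exp (by linarith [hs2.1])]
    linarith
  have h3 : G s = ∑' p : Nat.Primes, (nd F p : ℝ) * ((p : ℕ) : ℝ) ^ (-s) := rfl
  rw [← h3] at h1
  linarith

end Pool.Agent.CH
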